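import Pool.Agent.helper86.OF.SpecL

/-!
# GRA: greedy assignment of items to colours
-/

open scoped BigOperators

namespace Pool.Agent.OF

noncomputable section

open Classical

theorem GRA_aux : ∀ (ι κ ω : Type) [Fintype ι] [Fintype κ] [Fintype ω] [Nonempty κ]
    (I : Finset ι) (Q : Finset κ)
    (typ : ι → ℕ) (R : ι → ι → Prop) (bad : ι → κ → Prop) (hit : ι → κ → Finset ω)
    (cap s : ℕ → ℕ) (d b g h load o : ℕ),
    (∀ x ∈ I, (I.filter fun y => y ≠ x ∧ (R x y ∨ R y x)).card ≤ d) →
    (∀ x ∈ I, (Q.filter fun q => bad x q).card ≤ b) →
    (∀ τ, (I.filter fun x => typ x = τ).card ≤ s τ * cap τ) →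
    (∀ x ∈ I, ∀ q ∈ Q, (hit x q).card ≤ h) →
    (∀ x ∈ I, ∀ v, (Q.filter fun q => v ∈ hit x q).card ≤ g) →
    0 < load → h * I.card ≤ o * load →
    (∀ x ∈ I, d + b + s (typ x) + g * o < Q.card) →
    ∃ a : ι → κ, (∀ x ∈ I, a x ∈ Q) ∧ (∀ x ∈ I, ∀ y ∈ I, x ≠ y → R x y → a x ≠ a y) ∧
      (∀ x ∈ I, ¬ bad x (a x)) ∧
      (∀ q ∈ Q, ∀ τ, (I.filter fun x => a x = q ∧ typ x = τ).card ≤ cap τ) ∧
      ∀ v, (I.filter fun x => v ∈ hit x (a x)).card ≤ load := by
  intro ι κ ω _ _ _ _ I Q typ R bad hit cap s d b g h load o hR hbad htyp hhit hg hload hh hQ
  have key : ∀ J : Finset ι, J ⊆ I → ∃ a : ι → κ, (∀ x ∈ J, a x ∈ Q) ∧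
      (∀ x ∈ J, ∀ y ∈ J, x ≠ y → R x y → a x ≠ a y) ∧
      (∀ x ∈ J, ¬ bad x (a x)) ∧
      (∀ q ∈ Q, ∀ τ, (J.filter fun x => a x = q ∧ typ x = τ).card ≤ cap τ) ∧
      ∀ v, (J.filter fun x => v ∈ hit x (a x)).card ≤ load := by
    intro J
    induction J using Finset.induction_on with
    | empty =>
      intro _
      exact ⟨fun _ => Classical.arbitrary κ, by simp, by simp, by simp, by simp, by simp⟩
    | insert x J hxJ ih =>
      intro hJ
      have hxI : x ∈ I := hJ (Finset.mem_insert_self x J)
      have hJI : J ⊆ I := fun y hy => hJ (Finset.mem_insert_of_mem hy)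
      obtain ⟨a, a1, a2, a3, a4, a5⟩ := ih hJI
      -- excluded colours
      set E1 : Finset κ := (J.filter fun y => y ≠ x ∧ (R x y ∨ R y x)).image a with hE1
      set E2 : Finset κ := Q.filter fun q => bad x q with hE2
      set E3 : Finset κ := Q.filter fun q =>
        cap (typ x) ≤ (J.filter fun y => a y = q ∧ typ y = typ x).card with hE3
      set O : Finset ω := Finset.univ.filter fun v =>
        load ≤ (J.filter fun y => v ∈ hit y (a y)).card with hO
      set E4 : Finset κ := O.biUnion fun v => Q.filter fun q => v ∈ hit x q with hE4
      have c1 : E1.card ≤ d := by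
        refine Finset.card_image_le.trans (le_trans (Finset.card_le_card ?_) (hR x hxI))
        exact Finset.filter_subset_filter _ hJI
      have c2 : E2.card ≤ b := hbad x hxI
      have hcap : 0 < cap (typ x) := by
        by_contra hc
        have h0 : cap (typ x) = 0 := by omega
        have h1 := htyp (typ x)
        rw [h0, Nat.mul_zero, Nat.le_zero, Finset.card_eq_zero] at h1
        have h2 : x ∈ I.filter fun y => typ y = typ x := Finset.mem_filter.2 ⟨hxI, rfl⟩
        rw [h1] at h2
        exact absurd h2 (Finset.notMem_empty x)
      have c3 : E3.card ≤ s (typ x) := by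
        have h1 : E3.card * cap (typ x) ≤ (J.filter fun y => typ y = typ x).card := by
          have h2 : ∑ q ∈ E3, (J.filter fun y => a y = q ∧ typ y = typ x).card ≤
              (J.filter fun y => typ y = typ x).card := by
            rw [← Finset.card_biUnion]
            · apply Finset.card_le_card
              intro y hy
              rw [Finset.mem_biUnion] at hy
              obtain ⟨q, -, hq⟩ := hy
              rw [Finset.mem_filter] at hq ⊢
              exact ⟨hq.1, hq.2.2⟩
            · intro q _ q' _ hqq
              rw [Function.onFun, Finset.disjoint_left]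
              intro y hy hy'
              rw [Finset.mem_filter] at hy hy'
              exact hqq (hy.2.1.symm.trans hy'.2.1)
          refine le_trans ?_ h2
          rw [← smul_eq_mul]
          apply Finset.card_nsmul_le_sum
          intro q hq
          exact (Finset.mem_filter.1 hq).2
        have h3 : (J.filter fun y => typ y = typ x).card ≤ s (typ x) * cap (typ x) :=
          le_trans (Finset.card_le_card (Finset.filter_subset_filter _ hJI)) (htyp (typ x))
        exact Nat.le_of_mul_le_mul_right (h1.trans h3) hcap
      have c4 : E4.card ≤ g * o := by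
        have h1 : O.card ≤ o := by
          have h2 : O.card * load ≤ ∑ v ∈ O, (J.filter fun y => v ∈ hit y (a y)).card := by
            rw [← smul_eq_mul]
            apply Finset.card_nsmul_le_sum
            intro v hv
            exact (Finset.mem_filter.1 hv).2
          have h3 : ∑ v ∈ O, (J.filter fun y => v ∈ hit y (a y)).card ≤
              ∑ v : ω, (J.filter fun y => v ∈ hit y (a y)).card :=
            Finset.sum_le_sum_of_subset (Finset.subset_univ O)
          have h4 : ∑ v : ω, (J.filter fun y => v ∈ hit y (a y)).card =
              ∑ y ∈ J, (hit y (a y)).card := by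
            simp only [Finset.card_eq_sum_ones, Finset.sum_filter]
            rw [Finset.sum_comm]
            refine Finset.sum_congr rfl fun y _ => ?_
            rw [← Finset.sum_filter]
            congr 1
            ext v
            simp
          have h5 : ∑ y ∈ J, (hit y (a y)).card ≤ J.card * h := by
            rw [← smul_eq_mul]
            exact Finset.sum_le_card_nsmul _ _ _ fun y hy => hhit y (hJI hy) (a y) (a1 y hy)
          have h6 : J.card * h ≤ o * load := by
            calc J.card * h ≤ I.card * h := Nat.mul_le_mul_right _ (Finset.card_le_card hJI)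
              _ = h * I.card := Nat.mul_comm _ _
              _ ≤ o * load := hh
          have h7 : O.card * load ≤ o * load := by omega
          exact Nat.le_of_mul_le_mul_right h7 hload
        calc E4.card ≤ ∑ v ∈ O, (Q.filter fun q => v ∈ hit x q).card := Finset.card_biUnion_le
          _ ≤ O.card * g := by
            rw [← smul_eq_mul]
            exact Finset.sum_le_card_nsmul _ _ _ fun v _ => hg x hxI v
          _ ≤ o * g := Nat.mul_le_mul_right _ h1
          _ = g * o := Nat.mul_comm _ _
      obtain ⟨q, hqQ, hqE⟩ : ∃ q ∈ Q, q ∉ E1 ∪ E2 ∪ E3 ∪ E4 := by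
        by_contra hc
        push Not at hc
        have h1 : Q.card ≤ (E1 ∪ E2 ∪ E3 ∪ E4).card := Finset.card_le_card hc
        have h2 : (E1 ∪ E2 ∪ E3 ∪ E4).card ≤ E1.card + E2.card + E3.card + E4.card := by
          refine (Finset.card_union_le _ _).trans (Nat.add_le_add_right ?_ _)
          refine (Finset.card_union_le _ _).trans (Nat.add_le_add_right ?_ _)
          exact Finset.card_union_le _ _
        have h3 := hQ x hxI
        omega
      simp only [Finset.mem_union, not_or] at hqE
      obtain ⟨⟨⟨q1, q2⟩, q3⟩, q4⟩ := hqE
      have hne : ∀ y ∈ J, y ≠ x := fun y hy h => hxJ (h ▸ hy)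
      have hup : ∀ y ∈ J, Function.update a x q y = a y := fun y hy =>
        Function.update_of_ne (hne y hy) _ _
      have hux : Function.update a x q x = q := Function.update_self _ _ _
      refine ⟨Function.update a x q, ?_, ?_, ?_, ?_, ?_⟩
      · intro y hy
        rcases Finset.mem_insert.1 hy with rfl | hy
        · rw [hux]; exact hqQ
        · rw [hup y hy]; exact a1 y hy
      · intro y hy z hz hyz hr
        rcases Finset.mem_insert.1 hy with hy1 | hy1
        · rcases Finset.mem_insert.1 hz with hz1 | hz1
          · exact absurd (hy1.trans hz1.symm) hyz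
          · rw [hy1, hux, hup z hz1]
            intro he
            apply q1
            rw [hE1, Finset.mem_image]
            rw [hy1] at hr hyz
            exact ⟨z, Finset.mem_filter.2 ⟨hz1, Ne.symm hyz, Or.inl hr⟩, he.symm⟩
        · rcases Finset.mem_insert.1 hz with hz1 | hz1
          · rw [hz1, hux, hup y hy1]
            intro he
            apply q1
            rw [hE1, Finset.mem_image]
            rw [hz1] at hr hyz
            exact ⟨y, Finset.mem_filter.2 ⟨hy1, hyz, Or.inr hr⟩, he⟩
          · rw [hup y hy1, hup z hz1]
            exact a2 y hy1 z hz1 hyz hr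
      · intro y hy
        rcases Finset.mem_insert.1 hy with rfl | hy
        · rw [hux]
          intro hb
          exact q2 (Finset.mem_filter.2 ⟨hqQ, hb⟩)
        · rw [hup y hy]; exact a3 y hy
      · intro r hr τ
        have hfil : (J.filter fun y => Function.update a x q y = r ∧ typ y = τ) =
            J.filter fun y => a y = r ∧ typ y = τ := by
          apply Finset.filter_congr
          intro y hy
          rw [hup y hy]
        rw [Finset.filter_insert]
        split_ifs with hc
        · rw [Finset.card_insert_of_notMem (fun hm => hxJ (Finset.mem_filter.1 hm).1), hfil]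
          rw [hux] at hc
          obtain ⟨rfl, rfl⟩ := hc
          by_contra hlt
          apply q3
          rw [hE3, Finset.mem_filter]
          refine ⟨hqQ, ?_⟩
          omega
        · rw [hfil]
          exact a4 r hr τ
      · intro v
        have hfil : (J.filter fun y => v ∈ hit y (Function.update a x q y)) =
            J.filter fun y => v ∈ hit y (a y) := by
          apply Finset.filter_congr
          intro y hy
          rw [hup y hy]
        rw [Finset.filter_insert]
        split_ifs with hc
        · rw [Finset.card_insert_of_notMem (fun hm => hxJ (Finset.mem_filter.1 hm).1), hfil]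
          rw [hux] at hc
          by_contra hlt
          apply q4
          rw [hE4, Finset.mem_biUnion]
          refine ⟨v, ?_, Finset.mem_filter.2 ⟨hqQ, hc⟩⟩
          rw [hO, Finset.mem_filter]
          refine ⟨Finset.mem_univ v, ?_⟩
          omega
        · rw [hfil]
          exact a5 v
  exact key I (Finset.Subset.refl I)

theorem GRA : GRA_stmt := GRA_aux

end

end Pool.Agent.OF
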