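import Pool.Agent.helper86.OF.SpecB

/-!
# OVF: overfull sets in critical graphs
-/

open scoped BigOperators

namespace Pool.Agent.OF

noncomputable section

open Classical

/-- the vertices of `W` on edges of colour `i` inside `W` -/
theorem OVF_even {V : Type} [Fintype V] (H : SimpleGraph V) (D : ℕ) (c : Sym2 V → ℕ)
    (hc : PEC H D c) (W : Finset V) (i : ℕ) :
    Even (W.filter fun v => ∃ w ∈ W, H.Adj v w ∧ c s(v, w) = i).card := by
  set S := W.filter fun v => ∃ w ∈ W, H.Adj v w ∧ c s(v, w) = i with hS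
  have hex : ∀ v, v ∈ S → ∃ w, w ∈ W ∧ H.Adj v w ∧ c s(v, w) = i := fun v hv =>
    (Finset.mem_filter.1 hv).2
  choose g hg using hex
  have hmem : ∀ v (hv : v ∈ S), g v hv ∈ S := by
    intro v hv
    obtain ⟨h1, h2, h3⟩ := hg v hv
    refine Finset.mem_filter.2 ⟨h1, v, (Finset.mem_filter.1 hv).1, h2.symm, ?_⟩
    rw [Sym2.eq_swap]
    exact h3
  have h2 : ∑ v ∈ S, (1 : ZMod 2) = 0 := by
    refine Finset.sum_involution g (fun a ha => by decide) (fun a ha _ => ?_) hmem
      (fun a ha => ?_)
    · exact (hg a ha).2.1.ne'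
    · obtain ⟨h1, h2, h3⟩ := hg a ha
      obtain ⟨h4, h5, h6⟩ := hg (g a ha) (hmem a ha)
      refine hc.2 (g a ha) _ a h5 h2.symm ?_
      rw [h6, Sym2.eq_swap, h3]
  rw [Finset.sum_const, nsmul_eq_mul, mul_one] at h2
  exact (ZMod.natCast_eq_zero_iff_even).1 h2

theorem OVF_le {V : Type} [Fintype V] (H : SimpleGraph V) (D : ℕ) (hE : EC H D) (W : Finset V)
    (hW : W.card % 2 = 1) : ep H W W ≤ D * (W.card - 1) := by
  obtain ⟨c, hc⟩ := hE
  have h1 : ep H W W = ∑ i ∈ Finset.range D,
      (W.filter fun v => ∃ w ∈ W, H.Adj v w ∧ c s(v, w) = i).card := by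
    unfold ep dgs
    have h2 : ∀ i, (W.filter fun v => ∃ w ∈ W, H.Adj v w ∧ c s(v, w) = i).card =
        ∑ v ∈ W, if (∃ w ∈ W, H.Adj v w ∧ c s(v, w) = i) then 1 else 0 := fun i =>
      Finset.card_filter _ _
    simp only [h2]
    rw [Finset.sum_comm]
    refine Finset.sum_congr rfl fun v hv => ?_
    rw [← Finset.card_filter]
    refine Finset.card_bij (fun w _ => c s(v, w)) (fun w hw => ?_) (fun w hw w' hw' h => ?_)
      (fun i hi => ?_)
    · rw [Finset.mem_filter] at hw ⊢
      exact ⟨Finset.mem_range.2 (hc.1 v w hw.2), w, hw.1, hw.2, rfl⟩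
    · rw [Finset.mem_filter] at hw hw'
      exact hc.2 v w w' hw.2 hw'.2 h
    · rw [Finset.mem_filter] at hi
      obtain ⟨-, w, hw, ha, hi⟩ := hi
      exact ⟨w, Finset.mem_filter.2 ⟨hw, ha⟩, hi⟩
  rw [h1]
  have h3 : ∀ i ∈ Finset.range D,
      (W.filter fun v => ∃ w ∈ W, H.Adj v w ∧ c s(v, w) = i).card ≤ W.card - 1 := by
    intro i _
    have h4 := OVF_even H D c hc W i
    have h5 := Finset.card_filter_le W (fun v => ∃ w ∈ W, H.Adj v w ∧ c s(v, w) = i)
    rw [Nat.even_iff] at h4
    omega
  calc _ ≤ (Finset.range D).card * (W.card - 1) := by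
        rw [← smul_eq_mul]
        exact Finset.sum_le_card_nsmul _ _ _ h3
    _ = D * (W.card - 1) := by rw [Finset.card_range]

theorem OVF_out {V : Type} [Fintype V] (G H : SimpleGraph V) (v w : V) (W : Finset V)
    (hH : ∀ x y, H.Adj x y ↔ G.Adj x y ∧ s(x, y) ≠ s(v, w)) (hn : ¬ (v ∈ W ∧ w ∈ W)) :
    ep H W W = ep G W W := by
  unfold ep dgs
  refine Finset.sum_congr rfl fun x hx => ?_
  congr 1
  refine Finset.filter_congr fun y hy => ?_
  rw [hH]
  constructor
  · exact fun h => h.1
  · intro h
    refine ⟨h, fun he => hn ?_⟩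
    rw [Sym2.eq_iff] at he
    rcases he with ⟨rfl, rfl⟩ | ⟨rfl, rfl⟩
    · exact ⟨hx, hy⟩
    · exact ⟨hy, hx⟩

theorem OVF_two {V : Type} [Fintype V] (G H : SimpleGraph V) (v w : V) (hvw : v ≠ w)
    (hH : ∀ x y, H.Adj x y ↔ G.Adj x y ∧ s(x, y) ≠ s(v, w)) :
    ep G Finset.univ Finset.univ ≤ ep H Finset.univ Finset.univ + 2 := by
  have h3 : ∀ u, dgs G Finset.univ u ≤ dgs H Finset.univ u +
      ((if u = v then 1 else 0) + (if u = w then 1 else 0)) := by
    intro u
    unfold dgs
    by_cases huv : u = v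
    · subst huv
      rw [if_pos rfl]
      have h4 : (Finset.univ.filter fun x => G.Adj u x) ⊆
          insert w (Finset.univ.filter fun x => H.Adj u x) := by
        intro x hx
        rw [Finset.mem_filter] at hx
        rw [Finset.mem_insert, Finset.mem_filter, hH]
        by_cases hxw : x = w
        · exact Or.inl hxw
        · refine Or.inr ⟨Finset.mem_univ _, hx.2, fun he => ?_⟩
          rw [Sym2.eq_iff] at he
          rcases he with ⟨_, h⟩ | ⟨h, h'⟩
          · exact hxw h
          · exact hvw h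
      have h5 := (Finset.card_le_card h4).trans (Finset.card_insert_le _ _)
      omega
    · by_cases huw : u = w
      · subst huw
        rw [if_pos rfl]
        have h4 : (Finset.univ.filter fun x => G.Adj u x) ⊆
            insert v (Finset.univ.filter fun x => H.Adj u x) := by
          intro x hx
          rw [Finset.mem_filter] at hx
          rw [Finset.mem_insert, Finset.mem_filter, hH]
          by_cases hxw : x = v
          · exact Or.inl hxw
          · refine Or.inr ⟨Finset.mem_univ _, hx.2, fun he => ?_⟩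
            rw [Sym2.eq_iff] at he
            rcases he with ⟨h, _⟩ | ⟨_, h'⟩
            · exact huv h
            · exact hxw h'
        have h5 := (Finset.card_le_card h4).trans (Finset.card_insert_le _ _)
        omega
      · have h4 : (Finset.univ.filter fun x => G.Adj u x) ⊆
            (Finset.univ.filter fun x => H.Adj u x) := by
          intro x hx
          rw [Finset.mem_filter] at hx
          rw [Finset.mem_filter, hH]
          refine ⟨Finset.mem_univ _, hx.2, fun he => ?_⟩
          rw [Sym2.eq_iff] at he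
          rcases he with ⟨h, _⟩ | ⟨h, _⟩
          · exact huv h
          · exact huw h
        have h5 := Finset.card_le_card h4
        omega
  unfold ep
  calc _ ≤ ∑ u, (dgs H Finset.univ u +
      ((if u = v then 1 else 0) + (if u = w then 1 else 0))) :=
        Finset.sum_le_sum fun u _ => h3 u
    _ = _ := by
      rw [Finset.sum_add_distrib, Finset.sum_add_distrib, Finset.sum_ite_eq',
        Finset.sum_ite_eq']
      simp

theorem OVF_del {V : Type} (G : SimpleGraph V) (v w : V) (x y : V) :
    (G.deleteEdges {s(v, w)}).Adj x y ↔ G.Adj x y ∧ s(x, y) ≠ s(v, w) := by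
  rw [SimpleGraph.deleteEdges_adj, Set.mem_singleton_iff]

theorem OVF : OVF_stmt := by
  intro V _ G D hC W hW hO
  -- all edges are inside `W`
  have hin : ∀ v w, G.Adj v w → v ∈ W ∧ w ∈ W := by
    intro v w hvw
    by_contra hn
    have h1 := OVF_le (G.deleteEdges {s(v, w)}) D (hC.del v w hvw) W hW
    rw [OVF_out G _ v w W (OVF_del G v w) hn] at h1
    omega
  have hWu : W = Finset.univ := by
    obtain ⟨w0, hw0⟩ : W.Nonempty := by
      rw [← Finset.card_pos]
      omega
    ext u
    simp only [Finset.mem_univ, iff_true]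
    by_contra hu
    have hne : u ≠ w0 := fun h => hu (h ▸ hw0)
    obtain ⟨p⟩ := hC.con.preconnected u w0
    cases p with
    | nil => exact hne rfl
    | cons h _ => exact hu (hin _ _ h).1
  refine ⟨hWu, ?_⟩
  subst hWu
  have hlow := hO
  rw [Finset.card_univ] at hlow hW
  obtain ⟨v, w, hvw⟩ : ∃ v w, G.Adj v w := by
    by_contra hn
    push Not at hn
    have h1 : ep G Finset.univ Finset.univ = 0 := by
      unfold ep dgs
      refine Finset.sum_eq_zero fun v _ => ?_
      rw [Finset.card_eq_zero, Finset.filter_eq_empty_iff]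
      exact fun w _ => hn v w
    omega
  have h1 := OVF_le (G.deleteEdges {s(v, w)}) D (hC.del v w hvw) Finset.univ
    (by rw [Finset.card_univ]; exact hW)
  rw [Finset.card_univ] at h1
  have h2 := OVF_two G _ v w hvw.ne (OVF_del G v w)
  omega

end

end Pool.Agent.OF
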