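import Pool.Agent.helper86.OF.SpecB

/-!
# TKD: degrees in the graph with tokens
-/

open scoped BigOperators

namespace Pool.Agent.OF

noncomputable section

open Classical

theorem TKD_ll {V : Type} [Fintype V] (G : SimpleGraph V) (X : Finset V) (D : ℕ) (v w : V) :
    (tokG G X D).Adj (Sum.inl v) (Sum.inl w) ↔ (G.Adj v w ∧ ¬ (v ∈ X ∧ w ∈ X)) := by
  unfold tokG
  rw [SimpleGraph.fromRel_adj]
  constructor
  · rintro ⟨-, h | h⟩
    · exact h
    · exact (outG G X).symm.symm _ _ h
  · intro h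
    exact ⟨fun he => h.1.ne (Sum.inl_injective he), Or.inl h⟩

theorem TKD_lr {V : Type} [Fintype V] (G : SimpleGraph V) (X : Finset V) (D : ℕ) (v w : V)
    (j : Fin D) : (tokG G X D).Adj (Sum.inl v) (Sum.inr (w, j)) ↔
      (v = w ∧ v ∈ X ∧ (j : ℕ) + dg G v < D) := by
  unfold tokG
  rw [SimpleGraph.fromRel_adj]
  constructor
  · rintro ⟨-, h | h⟩
    · exact h
    · exact h.elim
  · intro h
    exact ⟨by simp, Or.inl h⟩

theorem TKD_rl {V : Type} [Fintype V] (G : SimpleGraph V) (X : Finset V) (D : ℕ) (v w : V)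
    (j : Fin D) : (tokG G X D).Adj (Sum.inr (w, j)) (Sum.inl v) ↔
      (v = w ∧ v ∈ X ∧ (j : ℕ) + dg G v < D) := by
  rw [SimpleGraph.adj_comm]
  exact TKD_lr G X D v w j

theorem TKD_rr {V : Type} [Fintype V] (G : SimpleGraph V) (X : Finset V) (D : ℕ)
    (z z' : V × Fin D) : ¬ (tokG G X D).Adj (Sum.inr z) (Sum.inr z') := by
  unfold tokG
  rw [SimpleGraph.fromRel_adj]
  rintro ⟨-, h | h⟩
  · exact h.elim
  · exact h.elim

theorem TKD_ml {V : Type} (X : Finset V) (D : ℕ) (v : V) :
    (Sum.inl v : PT V D) ∈ XT X D ↔ v ∈ X := by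
  unfold XT
  rw [Finset.mem_map]
  constructor
  · rintro ⟨a, ha, he⟩
    have : a = v := Sum.inl_injective he
    exact this ▸ ha
  · exact fun h => ⟨v, h, rfl⟩

theorem TKD_mr {V : Type} (X : Finset V) (D : ℕ) (z : V × Fin D) :
    (Sum.inr z : PT V D) ∉ XT X D := by
  unfold XT
  rw [Finset.mem_map]
  rintro ⟨a, ha, he⟩
  exact absurd he (by simp)

/-- the degree into a set as a sum -/
theorem TKD_dgs {V : Type} [Fintype V] (H : SimpleGraph V) (S : Finset V) (v : V) :
    dgs H S v = ∑ w, if (w ∈ S ∧ H.Adj v w) then 1 else 0 := by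
  unfold dgs
  rw [← Finset.card_filter]
  congr 1
  ext w
  simp

theorem TKD_epX {V : Type} [Fintype V] (X : Finset V) (D : ℕ) (H : SimpleGraph (PT V D))
    (T : Finset (PT V D)) : ep H (XT X D) T = ∑ v ∈ X, dgs H T (Sum.inl v) := by
  unfold ep XT
  rw [Finset.sum_map]
  rfl

theorem TKD_epC {V : Type} [Fintype V] (X : Finset V) (D : ℕ) (H : SimpleGraph (PT V D))
    (T : Finset (PT V D)) (hT : ∀ z, dgs H T (Sum.inr z) = 0) :
    ep H (XT X D)ᶜ T = ∑ v ∈ Xᶜ, dgs H T (Sum.inl v) := by
  have h1 : ∑ v ∈ Xᶜ, dgs H T (Sum.inl v) =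
      ∑ x ∈ (Xᶜ).map (Function.Embedding.inl (β := V × Fin D)), dgs H T x := by
    rw [Finset.sum_map]
    rfl
  rw [h1]
  unfold ep
  symm
  apply Finset.sum_subset
  · intro x hx
    rw [Finset.mem_map] at hx
    obtain ⟨v, hv, rfl⟩ := hx
    rw [Finset.mem_compl] at hv ⊢
    exact fun h => hv ((TKD_ml X D v).1 h)
  · intro x hx hn
    rcases x with v | z
    · exfalso
      apply hn
      rw [Finset.mem_compl] at hx
      rw [Finset.mem_map]
      exact ⟨v, Finset.mem_compl.2 fun h => hx ((TKD_ml X D v).2 h), rfl⟩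
    · exact hT z

/-- the number of tokens -/
theorem TKD_tok (D d : ℕ) : (∑ j : Fin D, if (j : ℕ) + d < D then 1 else 0) = D - d := by
  rw [← Finset.card_filter]
  have h : ((Finset.univ : Finset (Fin D)).filter fun j : Fin D => (j : ℕ) + d < D).card =
      (Finset.range (D - d)).card := by
    refine Finset.card_bij (fun j _ => (j : ℕ)) (fun j hj => ?_) (fun j _ j' _ h => ?_)
      (fun i hi => ?_)
    · rw [Finset.mem_filter] at hj
      rw [Finset.mem_range]
      omega
    · exact Fin.ext h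
    · rw [Finset.mem_range] at hi
      exact ⟨⟨i, by omega⟩, Finset.mem_filter.2 ⟨Finset.mem_univ _, by simp only; omega⟩, rfl⟩
  rw [h, Finset.card_range]

/-- degrees into a set of the vertices of `G` -/
theorem TKD_dl {V : Type} [Fintype V] (G : SimpleGraph V) (X : Finset V) (D : ℕ)
    (S : Finset (PT V D)) (hS : ∀ z, Sum.inr z ∈ S) (v : V) :
    dgs (tokG G X D) S (Sum.inl v) =
      (∑ w, if (Sum.inl w ∈ S ∧ G.Adj v w ∧ ¬ (v ∈ X ∧ w ∈ X)) then 1 else 0) +
        (if v ∈ X then D - dg G v else 0) := by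
  rw [TKD_dgs, Fintype.sum_sum_type]
  congr 1
  · refine Finset.sum_congr rfl fun w _ => ?_
    simp only [TKD_ll]
  · rw [Fintype.sum_prod_type, Finset.sum_eq_single v]
    · simp only [TKD_lr, hS, true_and]
      split_ifs with h
      · simp only [h, true_and]
        exact TKD_tok D (dg G v)
      · simp only [h, false_and, if_false, Finset.sum_const_zero]
    · intro w _ hw
      simp only [TKD_lr]
      refine Finset.sum_eq_zero fun j _ => ?_
      rw [if_neg]
      rintro ⟨-, h, -⟩
      exact hw h.symm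
    · intro h
      exact absurd (Finset.mem_univ v) h

theorem TKD : TKD_stmt := by
  intro V _ G D X hD
  have hind : ∀ v ∈ XT X D, ∀ w ∈ XT X D, ¬ (tokG G X D).Adj v w := by
    intro v hv w hw h
    rcases v with v | z
    · rcases w with w | z
      · rw [TKD_ll] at h
        exact h.2 ⟨(TKD_ml X D v).1 hv, (TKD_ml X D w).1 hw⟩
      · exact TKD_mr X D z hw
    · exact TKD_mr X D z hv
  have h1 : ∀ v ∈ X, dg (tokG G X D) (Sum.inl v) = dgs G Xᶜ v + (D - dg G v) := by
    intro v hv
    unfold dg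
    rw [TKD_dl G X D _ (fun z => Finset.mem_univ _) v, if_pos hv, TKD_dgs G Xᶜ v]
    congr 1
    refine Finset.sum_congr rfl fun w _ => ?_
    simp only [Finset.mem_univ, true_and, hv, Finset.mem_compl]
    congr 1
    rw [and_comm]
  have h2 : ∀ v, v ∉ X → dg (tokG G X D) (Sum.inl v) = dg G v := by
    intro v hv
    unfold dg
    rw [TKD_dl G X D _ (fun z => Finset.mem_univ _) v, if_neg hv, add_zero, TKD_dgs G _ v]
    refine Finset.sum_congr rfl fun w _ => ?_
    simp only [Finset.mem_univ, true_and, hv, false_and, not_false_eq_true, and_true]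
  refine ⟨h1, h2, ?_, ?_, ?_, hind⟩
  · rintro ⟨w, j⟩
    unfold dg dgs
    refine (Finset.card_le_card (t := {Sum.inl w}) ?_).trans (Finset.card_singleton _).le
    intro x hx
    rw [Finset.mem_filter] at hx
    rw [Finset.mem_singleton]
    rcases x with x | z
    · have h := hx.2
      rw [TKD_rl] at h
      rw [h.1]
    · exact absurd hx.2 (TKD_rr G X D _ _)
  · rw [TKD_epX]
    have e3 : ∀ v ∈ X, dgs (tokG G X D) (XT X D)ᶜ (Sum.inl v) = dg (tokG G X D) (Sum.inl v) := by
      intro v hv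
      unfold dg
      rw [TKD_dgs, TKD_dgs]
      refine Finset.sum_congr rfl fun w _ => ?_
      congr 1
      apply propext
      rw [Finset.mem_compl]
      constructor
      · exact fun h => ⟨Finset.mem_univ _, h.2⟩
      · exact fun h => ⟨fun hw => hind _ ((TKD_ml X D v).2 hv) _ hw h.2, h.2⟩
    unfold ep
    rw [← Finset.sum_add_distrib]
    refine Finset.sum_congr rfl fun v hv => ?_
    rw [e3 v hv, h1 v hv]
  · have e2 : ∀ z, dgs (tokG G X D) (XT X D)ᶜ (Sum.inr z) = 0 := by
      intro z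
      unfold dgs
      rw [Finset.card_eq_zero, Finset.filter_eq_empty_iff]
      intro x hx ha
      rw [Finset.mem_compl] at hx
      rcases x with x | z'
      · obtain ⟨w, j⟩ := z
        rw [TKD_rl] at ha
        exact hx ((TKD_ml X D x).2 ha.2.1)
      · exact TKD_rr G X D _ _ ha
    rw [TKD_epC X D _ _ e2]
    unfold ep
    refine Finset.sum_congr rfl fun v hv => ?_
    rw [Finset.mem_compl] at hv
    rw [TKD_dl G X D _ (fun z => Finset.mem_compl.2 (TKD_mr X D z)) v, if_neg hv, add_zero,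
      TKD_dgs]
    refine Finset.sum_congr rfl fun w _ => ?_
    congr 1
    apply propext
    rw [Finset.mem_compl, Finset.mem_compl, TKD_ml]
    constructor
    · exact fun h => ⟨h.1, h.2.1⟩
    · exact fun h => ⟨h.1, h.2, fun h' => hv h'.1⟩

end

end Pool.Agent.OF
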